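import Mathlib

set_option autoImplicit false
set_option maxHeartbeats 4000000

open Finset

namespace Pool.Agent.N562.Antichain

/-- The antichain element (an increasing oscillation whose ends are doubled), as a function of
positions. -/
def sgF (t p : ℕ) : ℕ :=
  if p = 0 then 3 else if p = 1 then 0 else if p = 2 then 1 else
  if p + 1 = 2 * t then 2 * t + 2 else if p = 2 * t + 1 then 2 * t else
  if p = 2 * t + 2 then 2 * t + 1 else if p % 2 = 1 then p + 2 else p - 2

lemma sgF_cases (t p : ℕ) (h3 : 3 ≤ t) (hp : p < 2 * t + 3) :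
    (p = 0 ∧ sgF t p = 3) ∨ (p = 1 ∧ sgF t p = 0) ∨ (p = 2 ∧ sgF t p = 1) ∨
    (p + 1 = 2 * t ∧ sgF t p = 2 * t + 2) ∨ (p = 2 * t + 1 ∧ sgF t p = 2 * t) ∨
    (p = 2 * t + 2 ∧ sgF t p = 2 * t + 1) ∨
    (p % 2 = 1 ∧ 3 ≤ p ∧ p + 3 ≤ 2 * t ∧ sgF t p = p + 2) ∨
    (p % 2 = 0 ∧ 4 ≤ p ∧ p ≤ 2 * t ∧ sgF t p + 2 = p) := by
  unfold sgF
  split_ifs <;> omega

lemma sgF_lt (t p : ℕ) (ht : 3 ≤ t) (hp : p < 2 * t + 3) : sgF t p < 2 * t + 3 := by
  have := sgF_cases t p ht hp
  omega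

lemma sgF_inj (t p q : ℕ) (ht : 3 ≤ t) (hp : p < 2 * t + 3) (hq : q < 2 * t + 3)
    (h : sgF t p = sgF t q) : p = q := by
  rcases sgF_cases t p ht hp with a | a | a | a | a | a | a | a <;>
  rcases sgF_cases t q ht hq with c | c | c | c | c | c | c | c <;> omega

/-- inversions of the oscillation, starting at the left end -/
lemma sgF_inv (t x y : ℕ) (ht : 3 ≤ t) (hxy : x < y) (hy : y < 2 * t + 3)
    (h : sgF t y < sgF t x) :
    (x = 0 ∧ (y = 1 ∨ y = 2 ∨ y = 4)) ∨
    (x + 1 = 2 * t ∧ (y = 2 * t ∨ y = 2 * t + 1 ∨ y = 2 * t + 2)) ∨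
    (x % 2 = 1 ∧ 3 ≤ x ∧ x + 3 ≤ 2 * t ∧ (y = x + 1 ∨ y = x + 3)) := by
  rcases sgF_cases t x ht (by omega) with a | a | a | a | a | a | a | a <;>
  rcases sgF_cases t y ht hy with c | c | c | c | c | c | c | c <;> omega

lemma sgF_vals (t : ℕ) (h3 : 3 ≤ t) : sgF t 0 = 3 ∧ sgF t 1 = 0 ∧ sgF t 2 = 1 ∧ sgF t 4 = 2 ∧
    sgF t 3 = 5 ∧ sgF t (2 * t - 1) = 2 * t + 2 ∧ sgF t (2 * t) = 2 * t - 2 ∧
    sgF t (2 * t + 1) = 2 * t ∧ sgF t (2 * t + 2) = 2 * t + 1 := by
  have h0 := sgF_cases t 0 h3 (by omega)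
  have h1 := sgF_cases t 1 h3 (by omega)
  have h2 := sgF_cases t 2 h3 (by omega)
  have h4 := sgF_cases t 3 h3 (by omega)
  have h5 := sgF_cases t 4 h3 (by omega)
  have h6 := sgF_cases t (2 * t - 1) h3 (by omega)
  have h7 := sgF_cases t (2 * t) h3 (by omega)
  have h8 := sgF_cases t (2 * t + 1) h3 (by omega)
  have h9 := sgF_cases t (2 * t + 2) h3 (by omega)
  refine ⟨?_, ?_, ?_, ?_, ?_, ?_, ?_, ?_, ?_⟩
  · clear h1 h2 h4 h5 h6 h7 h8 h9; omega
  · clear h0 h2 h4 h5 h6 h7 h8 h9; omega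
  · clear h0 h1 h4 h5 h6 h7 h8 h9; omega
  · clear h0 h1 h2 h4 h6 h7 h8 h9; omega
  · clear h0 h1 h2 h5 h6 h7 h8 h9; omega
  · clear h0 h1 h2 h4 h5 h7 h8 h9; omega
  · clear h0 h1 h2 h4 h5 h6 h8 h9; omega
  · clear h0 h1 h2 h4 h5 h6 h7 h9; omega
  · clear h0 h1 h2 h4 h5 h6 h7 h8; omega

/-- height function -/
def ht (t p : ℕ) : ℤ :=
  if p = 0 then 0 else if p = 1 then 1 else if p = 2 then 1 else
  if p = 2 * t + 1 then 2 * t - 1 else if p = 2 * t + 2 then 2 * t - 1 else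
  if p % 2 = 1 then p - 1 else p - 3

lemma ht_cases (t p : ℕ) (h3 : 3 ≤ t) (hp : p < 2 * t + 3) :
    (p = 0 ∧ ht t p = 0) ∨ (p = 1 ∧ ht t p = 1) ∨ (p = 2 ∧ ht t p = 1) ∨
    (p = 2 * t + 1 ∧ ht t p = 2 * t - 1) ∨ (p = 2 * t + 2 ∧ ht t p = 2 * t - 1) ∨
    (p % 2 = 1 ∧ 3 ≤ p ∧ p < 2 * t ∧ ht t p = p - 1) ∨
    (p % 2 = 0 ∧ 4 ≤ p ∧ p ≤ 2 * t ∧ ht t p = p - 3) := by
  unfold ht
  split_ifs <;> omega

lemma ht_adj (t x y : ℕ) (h3 : 3 ≤ t) (hxy : x < y) (hy : y < 2 * t + 3)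
    (h : sgF t y < sgF t x) : |ht t x - ht t y| ≤ 1 := by
  rw [abs_le]
  have h1 := sgF_inv t x y h3 hxy hy h
  rcases ht_cases t x h3 (by omega) with a | a | a | a | a | a | a <;>
  rcases ht_cases t y h3 hy with c | c | c | c | c | c | c <;> omega

/-- a position with three inversions to the right is one of the two centres -/
lemma centre (t x y1 y2 y3 : ℕ) (h3 : 3 ≤ t) (h1 : x < y1) (h2 : y1 < y2) (h4 : y2 < y3)
    (hy : y3 < 2 * t + 3) (i1 : sgF t y1 < sgF t x) (i2 : sgF t y2 < sgF t x)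
    (i3 : sgF t y3 < sgF t x) : x = 0 ∨ x + 1 = 2 * t := by
  rcases sgF_inv t x y1 h3 h1 (by omega) i1 with a | a | a
  · exact Or.inl a.1
  · exact Or.inr a.1
  · rcases sgF_inv t x y2 h3 (by omega) (by omega) i2 with b | b | b
    · exact Or.inl b.1
    · exact Or.inr b.1
    · rcases sgF_inv t x y3 h3 (by omega) (by omega) i3 with c | c | c
      · exact Or.inl c.1
      · exact Or.inr c.1
      · omega

/-- the path from the first centre to the second one -/
def pth (i : ℕ) : ℕ := if i = 0 then 0 else if i % 2 = 1 then i + 3 else i + 1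

lemma pth_lt (t i : ℕ) (h3 : 3 ≤ t) (hi : i ≤ 2 * (t - 1)) : pth i < 2 * t + 3 := by
  unfold pth; split_ifs <;> omega

/-- consecutive positions of the path are inverted -/
lemma pth_inv (t i : ℕ) (h3 : 3 ≤ t) (hi : i + 1 ≤ 2 * (t - 1)) :
    (pth i < pth (i + 1) ∧ sgF t (pth (i + 1)) < sgF t (pth i)) ∨
    (pth (i + 1) < pth i ∧ sgF t (pth i) < sgF t (pth (i + 1))) := by
  have l1 := pth_lt t i h3 (by omega)
  have l2 := pth_lt t (i + 1) h3 hi
  have e1 : (i = 0 ∧ pth i = 0 ∧ pth (i + 1) = 4) ∨ (i % 2 = 1 ∧ pth i = i + 3 ∧ pth (i + 1) = i + 2) ∨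
      (i % 2 = 0 ∧ 2 ≤ i ∧ pth i = i + 1 ∧ pth (i + 1) = i + 4) := by
    rcases Nat.eq_zero_or_pos i with h0 | h0
    · subst h0
      left
      simp [pth]
    · rcases Nat.mod_two_eq_zero_or_one i with h1 | h1
      · right; right
        have e2 : (i + 1) % 2 = 1 := by omega
        refine ⟨h1, by omega, ?_, ?_⟩
        · simp [pth, h1, h0.ne']
        · simp [pth, e2]
      · right; left
        have e2 : (i + 1) % 2 ≠ 1 := by omega
        refine ⟨h1, ?_, ?_⟩
        · simp [pth, h1, h0.ne']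
        · simp [pth, e2]
  have c1 := sgF_cases t (pth i) h3 l1
  have c2 := sgF_cases t (pth (i + 1)) h3 l2
  rcases e1 with e | e | e <;>
  rcases c1 with a | a | a | a | a | a | a | a <;>
  rcases c2 with c | c | c | c | c | c | c | c <;> omega

/-- the permutations used, with `L = 2 t + 3`: the oscillation on the first `L` positions,
followed by a permutation in which increasing pairs are at distance less than `b`. -/
def Good (b t : ℕ) {n : ℕ} (π : Equiv.Perm (Fin n)) : Prop :=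
  (∀ p : Fin n, (p : ℕ) < 2 * t + 3 → ((π p : Fin n) : ℕ) = sgF t p) ∧
  (∀ p : Fin n, 2 * t + 3 ≤ (p : ℕ) → 2 * t + 3 ≤ ((π p : Fin n) : ℕ)) ∧
  (∀ x y : Fin n, 2 * t + 3 ≤ (x : ℕ) → x < y → π x < π y → (y : ℕ) < x + b)

/-- `a ≤ a'` for permutations of arbitrary lengths. -/
def Pattern (β τ : Σ n : ℕ, Equiv.Perm (Fin n)) : Prop :=
  ∃ f : Fin β.1 → Fin τ.1, StrictMono f ∧ ∀ i j, β.2 i < β.2 j ↔ τ.2 (f i) < τ.2 (f j)

/-- the antichain -/
def X (b : ℕ) : Set (Σ n : ℕ, Equiv.Perm (Fin n)) :=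
  {a | ∃ t : ℕ, 3 ≤ t ∧ b + 4 ≤ 2 * t ∧ a.1 = (2 * t + 3) * (b + 1) ∧ Good b t a.2}

lemma perm_eq {n : ℕ} (π π' : Equiv.Perm (Fin n)) (h : ∀ i j, π i < π j ↔ π' i < π' j) :
    π = π' := by
  have h1 : StrictMono (fun i => π' (π.symm i)) := by
    intro i j hij
    have := (h (π.symm i) (π.symm j)).1 (by simpa using hij)
    exact this
  have h2 : (fun i => π' (π.symm i)) = id := by
    apply (h1.range_inj strictMono_id).1
    rw [Set.range_id]
    exact Set.range_eq_univ.2 (fun y => ⟨π (π'.symm y), by simp⟩)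
  ext i
  have := congrFun h2 (π i)
  simp at this
  rw [this]

lemma no_embedding (b t t' : ℕ) (h3 : 3 ≤ t) (hb : b + 4 ≤ 2 * t) (htt : t < t')
    {n n' : ℕ} (hn : n = (2 * t + 3) * (b + 1)) 
    (π : Equiv.Perm (Fin n)) (π' : Equiv.Perm (Fin n')) (hG : Good b t π) (hG' : Good b t' π')
    (f : Fin n → Fin n') (hf : StrictMono f) (hp : ∀ i j, π i < π j ↔ π' (f i) < π' (f j)) :
    False := by
  obtain ⟨a1, a2, a3⟩ := hG
  obtain ⟨c1, c2, c3⟩ := hG'
  have hL : 2 * t + 3 ≤ n := by rw [hn]; nlinarith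
  -- inverted positions go to inverted positions
  have inv : ∀ x y : ℕ, ∀ hx : x < 2 * t + 3, ∀ hy : y < 2 * t + 3, x < y → sgF t y < sgF t x →
      f ⟨x, by omega⟩ < f ⟨y, by omega⟩ ∧ π' (f ⟨y, by omega⟩) < π' (f ⟨x, by omega⟩) := by
    intro x y hx hy hxy hs
    refine ⟨hf (by simpa using hxy), (hp _ _).1 ?_⟩
    rw [Fin.lt_def, a1 _ (by simpa using hy), a1 _ (by simpa using hx)]
    exact hs
  -- an inverted pair of `π'` lies in one block
  have blk : ∀ x y : Fin n', x < y → π' y < π' x →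
      ((y : ℕ) < 2 * t' + 3 ∧ sgF t' y < sgF t' x) ∨ 2 * t' + 3 ≤ (x : ℕ) := by
    intro x y hxy hs
    by_cases hx : 2 * t' + 3 ≤ (x : ℕ)
    · exact Or.inr hx
    · left
      push Not at hx
      have e1 := c1 x hx
      have hxl := sgF_lt t' x (by omega) hx
      have hy : (y : ℕ) < 2 * t' + 3 := by
        by_contra hcon
        push Not at hcon
        have := c2 y hcon
        rw [Fin.lt_def] at hs
        omega
      refine ⟨hy, ?_⟩
      rw [← c1 y hy, ← e1]
      exact hs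
  by_cases h0 : ((f ⟨0, by omega⟩ : Fin n') : ℕ) < 2 * t' + 3
  · -- block 1
    have key : ∀ i : ℕ, ∀ hi : i ≤ 2 * (t - 1),
        ((f ⟨pth i, by have := pth_lt t i h3 hi; omega⟩ : Fin n') : ℕ) < 2 * t' + 3 ∧
        |ht t' (f ⟨pth i, by have := pth_lt t i h3 hi; omega⟩ : Fin n') -
          ht t' (f ⟨0, by omega⟩ : Fin n')| ≤ i := by
      intro i
      induction i with
      | zero =>
        intro hi
        have e : pth 0 = 0 := by simp [pth]
        simp only [e]
        exact ⟨h0, by simp⟩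
      | succ i ih =>
        intro hi
        obtain ⟨g1, g2⟩ := ih (by omega)
        have l1 := pth_lt t i h3 (by omega)
        have l2 := pth_lt t (i + 1) h3 hi
        rcases pth_inv t i h3 hi with ⟨e1, e2⟩ | ⟨e1, e2⟩
        · obtain ⟨m1, m2⟩ := inv _ _ l1 l2 e1 e2
          rcases blk _ _ m1 m2 with ⟨b1, b2⟩ | b1
          · refine ⟨b1, ?_⟩
            have := ht_adj t' _ _ (by omega) (Fin.lt_def.1 m1) b1 b2
            rw [abs_le] at this g2 ⊢
            push_cast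
            constructor <;> linarith [this.1, this.2, g2.1, g2.2]
          · omega
        · obtain ⟨m1, m2⟩ := inv _ _ l2 l1 e1 e2
          rcases blk _ _ m1 m2 with ⟨b1, b2⟩ | b1
          · have m1' := Fin.lt_def.1 m1
            refine ⟨by omega, ?_⟩
            have := ht_adj t' _ _ (by omega) (Fin.lt_def.1 m1) b1 b2
            rw [abs_le] at this g2 ⊢
            push_cast
            constructor <;> linarith [this.1, this.2, g2.1, g2.2]
          · have m1' := Fin.lt_def.1 m1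
            omega
    obtain ⟨k1, k2⟩ := key (2 * (t - 1)) le_rfl
    have epth : pth (2 * (t - 1)) = 2 * t - 1 := by unfold pth; split_ifs <;> omega
    simp only [epth] at k1 k2
    -- the images of the centres are centres
    have cen : ∀ x y1 y2 y3 : ℕ, ∀ hx : x < y1, ∀ h1 : y1 < y2, ∀ h2 : y2 < y3,
        ∀ h3' : y3 < 2 * t + 3, sgF t y1 < sgF t x → sgF t y2 < sgF t x → sgF t y3 < sgF t x →
        ((f ⟨x, by omega⟩ : Fin n') : ℕ) < 2 * t' + 3 →
        ((f ⟨x, by omega⟩ : Fin n') : ℕ) = 0 ∨ ((f ⟨x, by omega⟩ : Fin n') : ℕ) + 1 = 2 * t' := by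
      intro x y1 y2 y3 hx h1 h2 h3' s1 s2 s3 hfx
      obtain ⟨m1, m1'⟩ := inv x y1 (by omega) (by omega) hx s1
      obtain ⟨m2, m2'⟩ := inv x y2 (by omega) (by omega) (by omega) s2
      obtain ⟨m3, m3'⟩ := inv x y3 (by omega) (by omega) (by omega) s3
      have q1 : f ⟨y1, by omega⟩ < f ⟨y2, by omega⟩ := hf (by simpa using h1)
      have q2 : f ⟨y2, by omega⟩ < f ⟨y3, by omega⟩ := hf (by simpa using h2)
      rcases blk _ _ m1 m1' with ⟨b1, b1'⟩ | b1
      · rcases blk _ _ m2 m2' with ⟨b2, b2'⟩ | b2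
        · rcases blk _ _ m3 m3' with ⟨b3, b3'⟩ | b3
          · exact centre t' _ _ _ _ (by omega) (Fin.lt_def.1 m1) (Fin.lt_def.1 q1)
              (Fin.lt_def.1 q2) b3 b1' b2' b3'
          · omega
        · omega
      · omega
    obtain ⟨v0, v1, v2, v4, v3, v6, v7, v8, v9⟩ := sgF_vals t h3
    have z1 := cen 0 1 2 4 (by omega) (by omega) (by omega) (by omega)
      (by rw [v1, v0]; omega) (by rw [v2, v0]; omega) (by rw [v4, v0]; omega) h0
    have z2 := cen (2 * t - 1) (2 * t) (2 * t + 1) (2 * t + 2) (by omega) (by omega) (by omega)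
      (by omega) (by rw [v7, v6]; omega) (by rw [v8, v6]; omega) (by rw [v9, v6]; omega) k1
    have z3 : f ⟨0, by omega⟩ < f ⟨2 * t - 1, by omega⟩ := hf (by
      rw [Fin.lt_def]
      show 0 < 2 * t - 1
      omega)
    rw [Fin.lt_def] at z3
    have z4 : ((f ⟨0, by omega⟩ : Fin n') : ℕ) = 0 := by omega
    have z5 : ((f ⟨2 * t - 1, by omega⟩ : Fin n') : ℕ) = 2 * t' - 1 := by omega
    rw [z4, z5] at k2
    have e1 : ht t' 0 = 0 := by simp [ht]
    have e2 : ht t' (2 * t' - 1) = 2 * t' - 2 := by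
      have := ht_cases t' (2 * t' - 1) (by omega) (by omega)
      omega
    rw [e1, e2, abs_le] at k2
    omega
  · -- block 2
    push Not at h0
    have r1 : f ⟨0, by omega⟩ < f ⟨3, by omega⟩ := hf (by simp [Fin.lt_def])
    have r2 : f ⟨3, by omega⟩ < f ⟨2 * t - 1, by omega⟩ := hf (by
      rw [Fin.lt_def]
      show 3 < 2 * t - 1
      omega)
    have r3 : π' (f ⟨3, by omega⟩) < π' (f ⟨2 * t - 1, by omega⟩) := by
      refine (hp _ _).1 ?_
      rw [Fin.lt_def, a1 _ (by show 3 < 2 * t + 3; omega), a1 _ (by show 2 * t - 1 < 2 * t + 3; omega)]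
      show sgF t 3 < sgF t (2 * t - 1)
      obtain ⟨v0, v1, v2, v4, v3, v6, v7, v8, v9⟩ := sgF_vals t h3
      rw [v3, v6]
      omega
    have r4 := c3 _ _ (by have := Fin.lt_def.1 r1; omega) r2 r3
    -- strictly monotone maps expand distances
    have r5 : ∀ d : ℕ, ∀ hd : 3 + d < n, ((f ⟨3, by omega⟩ : Fin n') : ℕ) + d ≤
        (f ⟨3 + d, hd⟩ : Fin n') := by
      intro d
      induction d with
      | zero => intro hd; simp
      | succ d ih =>
        intro hd
        have e1 := ih (by omega)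
        have e2 : f ⟨3 + d, by omega⟩ < f ⟨3 + (d + 1), hd⟩ := hf (by
          rw [Fin.lt_def]
          show 3 + d < 3 + (d + 1)
          omega)
        rw [Fin.lt_def] at e2
        omega
    have r6 := r5 (2 * t - 4) (by omega)
    have r7 : (⟨3 + (2 * t - 4), by omega⟩ : Fin n) = ⟨2 * t - 1, by omega⟩ := by
      ext; show 3 + (2 * t - 4) = 2 * t - 1; omega
    rw [r7] at r6
    omega

theorem antichain (b : ℕ) : IsAntichain Pattern (X b) := by
  rintro ⟨n, π⟩ ⟨t, h3, hb, hn, hG⟩ ⟨n', π'⟩ ⟨t', h3', hb', hn', hG'⟩ hne ⟨f, hf, hp⟩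
  dsimp only at *
  have hle : n ≤ n' := by
    have := Fintype.card_le_of_injective f hf.injective
    simpa using this
  have htt : t ≤ t' := by
    by_contra hcon
    push Not at hcon
    have : (2 * t' + 3) * (b + 1) < (2 * t + 3) * (b + 1) := by
      apply Nat.mul_lt_mul_of_pos_right <;> omega
    omega
  rcases htt.lt_or_eq with hlt | heq
  · exact no_embedding b t t' h3 hb hlt hn π π' hG hG' f hf hp
  · subst heq
    obtain rfl : n = n' := by omega
    have hid : f = id := by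
      apply (hf.range_inj strictMono_id).1
      rw [Set.range_id]
      exact (Finite.injective_iff_surjective.1 hf.injective).range_eq
    subst hid
    exact hne (by rw [perm_eq π π' hp])

/-! ### Counting -/

/-- the oscillation as a permutation -/
noncomputable def sgP (t : ℕ) (h3 : 3 ≤ t) : Equiv.Perm (Fin (2 * t + 3)) :=
  Equiv.ofBijective (fun p => ⟨sgF t p, sgF_lt t p h3 p.2⟩)
    (Finite.injective_iff_bijective.1 fun p q h => by
      ext
      exact sgF_inj t p q h3 p.2 q.2 (by simpa using h))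

/-- splitting of the positions -/
def spl (L b : ℕ) : Fin L ⊕ (Fin L × Fin b) ≃ Fin (L * (b + 1)) :=
  ((Equiv.sumCongr (Equiv.refl _) finProdFinEquiv).trans finSumFinEquiv).trans
    (finCongr (by ring))

lemma spl_inl (L b : ℕ) (p : Fin L) : ((spl L b (Sum.inl p) : Fin _) : ℕ) = p := by
  simp [spl]

lemma spl_inr (L b : ℕ) (i : Fin L) (j : Fin b) :
    ((spl L b (Sum.inr (i, j)) : Fin _) : ℕ) = L + (j + b * i) := by
  simp [spl, finProdFinEquiv]

/-- the permutation with given blocks -/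
noncomputable def mk (t b : ℕ) (h3 : 3 ≤ t) (β : Fin (2 * t + 3) → Equiv.Perm (Fin b)) :
    Equiv.Perm (Fin ((2 * t + 3) * (b + 1))) :=
  (spl (2 * t + 3) b).permCongr (Equiv.sumCongr (sgP t h3) (Equiv.prodShear Fin.revPerm β))

lemma mk_inl (t b : ℕ) (h3 : 3 ≤ t) (β : Fin (2 * t + 3) → Equiv.Perm (Fin b))
    (p : Fin (2 * t + 3)) : mk t b h3 β (spl _ b (Sum.inl p)) = spl _ b (Sum.inl (sgP t h3 p)) := by
  simp [mk, Equiv.permCongr_apply]

lemma mk_inr (t b : ℕ) (h3 : 3 ≤ t) (β : Fin (2 * t + 3) → Equiv.Perm (Fin b))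
    (i : Fin (2 * t + 3)) (j : Fin b) :
    mk t b h3 β (spl _ b (Sum.inr (i, j))) = spl _ b (Sum.inr (Fin.rev i, β i j)) := by
  simp [mk, Equiv.permCongr_apply, Equiv.prodShear]

lemma mk_inj (t b : ℕ) (h3 : 3 ≤ t) : Function.Injective (mk t b h3) := by
  intro β β' h
  ext i j : 2
  have h1 : mk t b h3 β (spl _ b (Sum.inr (i, j))) = mk t b h3 β' (spl _ b (Sum.inr (i, j))) := by
    rw [h]
  rw [mk_inr, mk_inr] at h1
  have h2 := (spl _ b).injective h1
  simpa using h2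

lemma mk_good (t b : ℕ) (h3 : 3 ≤ t) (β : Fin (2 * t + 3) → Equiv.Perm (Fin b)) :
    Good b t (mk t b h3 β) := by
  refine ⟨?_, ?_, ?_⟩
  · intro p hp
    obtain ⟨q, rfl⟩ := (spl (2 * t + 3) b).surjective p
    rcases q with q | ⟨i, j⟩
    · rw [mk_inl, spl_inl, spl_inl]
      rfl
    · rw [spl_inr] at hp
      omega
  · intro p hp
    obtain ⟨q, rfl⟩ := (spl (2 * t + 3) b).surjective p
    rcases q with q | ⟨i, j⟩
    · rw [spl_inl] at hp
      have := q.2
      omega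
    · rw [mk_inr, spl_inr]
      omega
  · intro x y hx hxy hs
    obtain ⟨q, rfl⟩ := (spl (2 * t + 3) b).surjective x
    obtain ⟨r, rfl⟩ := (spl (2 * t + 3) b).surjective y
    rcases q with q | ⟨i, j⟩
    · rw [spl_inl] at hx
      have := q.2
      omega
    · rcases r with r | ⟨i', j'⟩
      · rw [Fin.lt_def, spl_inl, spl_inr] at hxy
        have := r.2
        omega
      · rw [mk_inr, mk_inr] at hs
        rw [Fin.lt_def, spl_inr, spl_inr] at hxy hs
        rw [spl_inr, spl_inr]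
        have h1 := (β i j).2
        have h2 := (β i' j').2
        have h4 := j.2
        have h5 := j'.2
        have hr1 : ((Fin.rev i : Fin _) : ℕ) = 2 * t + 3 - (i + 1) := Fin.val_rev i
        have hr2 : ((Fin.rev i' : Fin _) : ℕ) = 2 * t + 3 - (i' + 1) := Fin.val_rev i'
        rw [hr1, hr2] at hs
        have hi := i.2
        have hi' := i'.2
        have e1 : (i : ℕ) = i' := by
          rcases lt_trichotomy (i : ℕ) i' with h | h | h
          · exfalso
            have : b * (2 * t + 3 - (i' + 1)) + b ≤ b * (2 * t + 3 - (i + 1)) := by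
              have : 2 * t + 3 - (i' + 1) + 1 ≤ 2 * t + 3 - ((i : ℕ) + 1) := by omega
              calc b * (2 * t + 3 - (i' + 1)) + b = b * (2 * t + 3 - ((i' : ℕ) + 1) + 1) := by ring
                _ ≤ _ := Nat.mul_le_mul_left b this
            omega
          · exact h
          · exfalso
            have : b * (i' : ℕ) + b ≤ b * (i : ℕ) := by
              calc b * (i' : ℕ) + b = b * ((i' : ℕ) + 1) := by ring
                _ ≤ _ := Nat.mul_le_mul_left b h
            omega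
        rw [e1]
        omega

lemma card_ge (t b : ℕ) (h3 : 3 ≤ t) (hb : b + 4 ≤ 2 * t) :
    (b.factorial) ^ (2 * t + 3) ≤
      Set.ncard {π : Equiv.Perm (Fin ((2 * t + 3) * (b + 1))) |
        (⟨(2 * t + 3) * (b + 1), π⟩ : Σ n : ℕ, Equiv.Perm (Fin n)) ∈ X b} := by
  have h1 : Set.range (mk t b h3) ⊆ {π : Equiv.Perm (Fin ((2 * t + 3) * (b + 1))) |
      (⟨(2 * t + 3) * (b + 1), π⟩ : Σ n : ℕ, Equiv.Perm (Fin n)) ∈ X b} := by
    rintro _ ⟨β, rfl⟩
    exact ⟨t, h3, hb, rfl, mk_good t b h3 β⟩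
  refine le_trans ?_ (Set.ncard_le_ncard h1 (Set.toFinite _))
  rw [← Set.image_univ, Set.ncard_image_of_injective _ (mk_inj t b h3), Set.ncard_univ]
  simp [Nat.card_eq_fintype_card, Fintype.card_perm]

end Pool.Agent.N562.Antichain
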