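import Pool.Agent.N894.WF.DefsN
import Pool.Agent.N999.WF_C3

/-!
Project WF (helper894), leaf C3p (helper562; adapted from leaf C3 of helper999): the assembly with the
local hypothesis.
-/

set_option autoImplicit false

namespace Pool.Agent.N562.WF

open N894.WF Pool.Agent.N999.WF

theorem t_C3p : N894.WF.LeafC3p := by
  classical
  intro hLIN hC1 hC2 G _ hLoc F K
  obtain ⟨f₀, hLoc⟩ := hLoc
  set f : ℕ := f₀ K with hf₀
  let F' : Finset G := F ∪ Finset.image₂ (· * ·) F F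
  have hF : ∀ g ∈ F, g ∈ F' := fun g hg => Finset.mem_union_left _ hg
  have hFF : ∀ g ∈ F, ∀ h ∈ F, g * h ∈ F' := fun g hg h hh =>
    Finset.mem_union_right _ (Finset.mem_image₂_of_mem hg hh)
  obtain ⟨m, L, hm, hlin⟩ := hLIN K (3 * K + 1) 3
  have hε : (0 : ℝ) < 1 / (2 * (f + K * L + 1)) := by positivity
  set ε : ℝ := 1 / (2 * (f + K * L + 1)) with hεd
  have hsmall : ((f : ℝ) + K * L) * ε < 1 := by
    rw [hεd, mul_one_div, div_lt_one (by positivity)]
    have : (0 : ℝ) ≤ f + K * L := by positivity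
    linarith
  obtain ⟨H, iH, iHf, d, φ, d0, dsymm, dtri, dr, dl, hφ1, hφ2, hf⟩ := hLoc F' K ε hε
  -- the length function
  let ell : H → ℝ := fun h => d h 1
  have l1 : ell 1 = 0 := (d0 1 1).2 rfl
  have lmul : ∀ a b, ell (a * b) ≤ ell a + ell b := by
    intro a b
    have h1 := dtri (a * b) b 1
    have h2 := dl b a 1
    rw [one_mul] at h2
    change d (a * b) 1 ≤ d a 1 + d b 1
    linarith
  have linv : ∀ a, ell a⁻¹ = ell a := by
    intro a
    have h1 := dr a a⁻¹ 1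
    rw [mul_inv_cancel, mul_one] at h1
    change d a⁻¹ 1 = d a 1
    rw [← h1, dsymm]
  have lconj : ∀ x a, ell (x * a * x⁻¹) = ell a := by
    intro x a
    have h1 := dl x⁻¹ (x * a) x
    rw [mul_inv_cancel] at h1
    have h2 := dr x a 1
    rw [mul_one] at h2
    change d (x * a * x⁻¹) 1 = d a 1
    rw [h1, h2]
  have lnn : ∀ a, 0 ≤ ell a := by
    intro a
    have h1 := dtri a 1 a
    rw [(d0 a a).2 rfl, dsymm 1 a] at h1
    change 0 ≤ d a 1
    linarith
  have lerr : ∀ g ∈ F, ∀ h ∈ F, ell (φ g * φ h * (φ (g * h))⁻¹) ≤ ε := by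
    intro g hg h hh
    have h1 := hφ1 g (hF g hg) h (hF h hh) (hFF g hg h hh)
    have h2 := dl (φ (g * h))⁻¹ (φ g * φ h) (φ (g * h))
    rw [mul_inv_cancel] at h2
    change d (φ g * φ h * (φ (g * h))⁻¹) 1 ≤ ε
    rw [h2, dsymm]
    exact h1
  obtain ⟨P, iP, iPf, π, ψ, hπ, hψ⟩ := hC2 H {x // x ∈ F'} (fun s => φ s.1) m hm
  refine ⟨P, iP, iPf, fun g => if h : g ∈ F' then ψ ⟨g, h⟩ else 1, fun T hT hErr g hg hg1 hmem => ?_⟩
  have hΨ : ∀ (g : G) (h : g ∈ F'), (if h : g ∈ F' then ψ ⟨g, h⟩ else 1) = ψ ⟨g, h⟩ :=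
    fun g h => dif_pos h
  have hErr' : ∀ t : {t // t ∈ T}, ∃ x : P, ∃ g, ∃ _ : g ∈ F, ∃ h, ∃ _ : h ∈ F,
      t.1 = x * ((if h : g ∈ F' then ψ ⟨g, h⟩ else 1) * (if h' : h ∈ F' then ψ ⟨h, h'⟩ else 1) *
        (if h' : g * h ∈ F' then ψ ⟨g * h, h'⟩ else 1)⁻¹) * x⁻¹ := by
    intro t
    obtain ⟨x, g, hg, h, hh, e⟩ := hErr t.1 t.2
    exact ⟨x, g, hg, h, hh, e⟩
  choose x a ha b hb hab using hErr'
  let sa : {t // t ∈ T} → {x // x ∈ F'} := fun t => ⟨a t, hF _ (ha t)⟩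
  let sb : {t // t ∈ T} → {x // x ∈ F'} := fun t => ⟨b t, hF _ (hb t)⟩
  let sp : {t // t ∈ T} → {x // x ∈ F'} := fun t => ⟨a t * b t, hFF _ (ha t) _ (hb t)⟩
  have hts : ∀ t : {t // t ∈ T}, t.1 = x t * (ψ (sa t) * ψ (sb t) * (ψ (sp t))⁻¹) * (x t)⁻¹ := by
    intro t
    have h1 := hab t
    rw [hΨ _ (hF _ (ha t)), hΨ _ (hF _ (hb t)), hΨ _ (hFF _ (ha t) _ (hb t))] at h1
    exact h1
  have hrange : (Set.range fun t => x t * (ψ (sa t) * ψ (sb t) * (ψ (sp t))⁻¹) * (x t)⁻¹) =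
      (T : Set P) := by
    ext z
    constructor
    · rintro ⟨t, rfl⟩
      change x t * (ψ (sa t) * ψ (sb t) * (ψ (sp t))⁻¹) * (x t)⁻¹ ∈ (T : Set P)
      rw [← hts t]
      exact t.2
    · intro hz
      exact ⟨⟨z, hz⟩, (hts ⟨z, hz⟩).symm⟩
  have hmem' : ψ ⟨g, hF g hg⟩ ∈ Subgroup.closure
      (Set.range fun t => x t * (ψ (sa t) * ψ (sb t) * (ψ (sp t))⁻¹) * (x t)⁻¹) := by
    rw [hrange, ← hΨ g (hF g hg)]
    exact hmem
  obtain ⟨e, he⟩ := hψ {t // t ∈ T} x sa sb sp ⟨g, hF g hg⟩ hmem'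
  set c : {t // t ∈ T} → H := fun t =>
    π (x t) * (φ (sa t).1 * φ (sb t).1 * (φ (sp t).1)⁻¹) * (π (x t))⁻¹ with hcd
  set C : Subgroup H := Subgroup.closure (Set.range c) with hCd
  have hcard : Fintype.card {t // t ∈ T} ≤ K := by
    rw [Fintype.card_coe]
    exact hT
  obtain ⟨lam, hlamL, hlam⟩ := exact_id K m L hlin hcard (fun s : {x // x ∈ F'} => φ s.1) C
    (fun t => π (x t)) sa sb sp ⟨g, hF g hg⟩ e he
  have hc : ∀ t, c t ∈ C := fun t => Subgroup.subset_closure ⟨t, rfl⟩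
  have hgC : φ g ∈ C := by
    have h1 : π (ψ ⟨g, hF g hg⟩) ∈ (Subgroup.closure (Set.range fun t =>
        x t * (ψ (sa t) * ψ (sb t) * (ψ (sp t))⁻¹) * (x t)⁻¹)).map π :=
      Subgroup.mem_map_of_mem π hmem'
    rw [MonoidHom.map_closure, ← Set.range_comp, hπ] at h1
    have h2 : (⇑π ∘ fun t => x t * (ψ (sa t) * ψ (sb t) * (ψ (sp t))⁻¹) * (x t)⁻¹) = c := by
      funext t
      simp only [Function.comp_apply, map_mul, map_inv, hπ, hcd]
    rw [h2] at h1
    exact h1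
  have hα := hC1 H {x // x ∈ F'} (fun s => φ s.1) C (Abelianization C) Abelianization.of
    {t // t ∈ T} (fun t => π (x t)) sa sb sp ⟨g, hF g hg⟩ lam hc hgC hlam
  -- the ordered product
  let c' : {t // t ∈ T} → C := fun t => ⟨c t, hc t⟩
  let z : C := ((Finset.univ : Finset {t // t ∈ T}).toList.map fun t => c' t ^ lam t).prod
  have hz : Abelianization.of z = ∏ t, Abelianization.of (c' t) ^ lam t := by
    change Abelianization.of ((Finset.univ : Finset {t // t ∈ T}).toList.map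
      fun t => c' t ^ lam t).prod = _
    rw [map_list_prod, List.map_map, ← Finset.prod_map_toList]
    congr 1
  have hbb : (⟨φ g, hgC⟩ : C) * z⁻¹ ∈ commutator C := by
    rw [← Abelianization.ker_of, MonoidHom.mem_ker, map_mul, map_inv, hz, mul_inv_eq_one]
    exact hα
  have hcε : ∀ t, ell (c t) ≤ ε := by
    intro t
    have h1 : ell (c t) = ell (φ (a t) * φ (b t) * (φ (a t * b t))⁻¹) := lconj _ _
    rw [h1]
    exact lerr _ (ha t) _ (hb t)
  have hTc : ((Finset.univ.image c : Finset H) : Set H) = Set.range c := by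
    rw [Finset.coe_image, Finset.coe_univ, Set.image_univ]
  obtain ⟨l, hl1, hl2, hl3⟩ := hf (Finset.univ.image c)
    (Finset.card_image_le.trans (by rwa [Finset.card_univ]))
    (fun t ht => by
      obtain ⟨i, -, rfl⟩ := Finset.mem_image.1 ht
      exact hcε i)
    (((⟨φ g, hgC⟩ : C) * z⁻¹ : C) : H) (by
      rw [hTc, ← hCd, ← Subgroup.map_subtype_commutator]
      exact ⟨_, hbb, rfl⟩)
  have hl4 := list_le ell l1 lmul ε l fun y hy => by
    obtain ⟨t, ht, w, hw⟩ := hl2 y hy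
    obtain ⟨i, -, rfl⟩ := Finset.mem_image.1 ht
    rcases hw with rfl | rfl
    · rw [lconj]
      exact hcε i
    · rw [lconj, linv]
      exact hcε i
  have hz4 := list_le (fun y : C => ell y.1) l1 (fun y y' => lmul y.1 y'.1) (L * ε)
    ((Finset.univ : Finset {t // t ∈ T}).toList.map fun t => c' t ^ lam t) fun y hy => by
    obtain ⟨t, -, rfl⟩ := List.mem_map.1 hy
    have h1 := zpow_le ell l1 lmul linv (c t) (lam t)
    change ell ((c' t ^ lam t : C) : H) ≤ _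
    rw [Subgroup.coe_zpow]
    refine h1.trans ?_
    have h2 : ((|lam t| : ℤ) : ℝ) ≤ L := by exact_mod_cast hlamL t
    exact mul_le_mul h2 (hcε t) (lnn _) (by positivity)
  have hlen : (((Finset.univ : Finset {t // t ∈ T}).toList.map fun t => c' t ^ lam t).length : ℝ) ≤
      K := by
    rw [List.length_map, Finset.length_toList, Finset.card_univ]
    exact_mod_cast hcard
  have hfin : ell (φ g) ≤ (f + K * L) * ε := by
    have h1 : φ g = ((⟨φ g, hgC⟩ * z⁻¹ : C) : H) * (z : H) := by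
      rw [Subgroup.coe_mul, Subgroup.coe_inv, inv_mul_cancel_right]
    have h2 : ell ((⟨φ g, hgC⟩ * z⁻¹ : C) : H) ≤ f * ε := by
      rw [← hl3]
      refine hl4.trans (mul_le_mul_of_nonneg_right ?_ hε.le)
      exact_mod_cast hl1
    have h3 : ell (z : H) ≤ K * (L * ε) :=
      hz4.trans (mul_le_mul_of_nonneg_right hlen (by positivity))
    rw [h1]
    refine (lmul _ _).trans ?_
    calc _ ≤ f * ε + K * (L * ε) := add_le_add h2 h3
      _ = _ := by ring
  have hge := hφ2 g (hF g hg) hg1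
  change 1 ≤ ell (φ g) at hge
  linarith

end Pool.Agent.N562.WF
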